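import Mathlib

set_option autoImplicit false

namespace Pool.Agent.Results.MP_e40659_an.Line

open Filter Topology Complex

/-- fibre maps `G_λ = 1/2 + (15/16) N(λ)`, with `N(λ)` nilpotent -/
noncomputable def G (l : ℂ) (w : ℂ × ℂ) : ℂ × ℂ :=
  (w.1 / 2 + 15 / 16 * (w.2 - l * w.1), w.2 / 2 + 15 / 16 * l * (w.2 - l * w.1))

/-- the inverse of `G_λ` -/
noncomputable def H (l : ℂ) (w : ℂ × ℂ) : ℂ × ℂ :=
  (2 * w.1 - 15 / 4 * (w.2 - l * w.1), 2 * w.2 - 15 / 4 * l * (w.2 - l * w.1))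

lemma no_inj {h : ℂ × ℂ → ℂ} (hd : Differentiable ℂ h) : ¬ Function.Injective h := fun hi => by
  have h1 : AnalyticAt ℂ (fun a : ℂ => h (a, 0)) 0 :=
    Differentiable.analyticAt (hd.comp (by fun_prop)) 0
  rcases h1.eventually_constant_or_nhds_le_map_nhds with h2 | h2
  · obtain ⟨a, h3, h4⟩ := ((h2.filter_mono nhdsWithin_le_nhds).and
      (self_mem_nhdsWithin (s := {(0 : ℂ)}ᶜ))).exists
    exact h4 (congrArg Prod.fst (hi h3))
  · have h3 : Tendsto (fun b : ℂ => h (0, b)) (𝓝 0) (𝓝 (h (0, 0))) :=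
      (hd.continuous.comp (by fun_prop : Continuous fun b : ℂ => ((0 : ℂ), b))).tendsto 0
    have h4 : ∀ᶠ b : ℂ in 𝓝 0, h (0, b) ∈ Set.range fun a : ℂ => h (a, 0) :=
      h3.eventually (h2 range_mem_map)
    obtain ⟨b, ⟨a, h5⟩, h6⟩ := ((h4.filter_mono nhdsWithin_le_nhds).and
      (self_mem_nhdsWithin (s := {(0 : ℂ)}ᶜ))).exists
    exact h6 (congrArg Prod.snd (hi h5)).symm

/-- There are `d ≥ 2`, a holomorphic skew product `F(z,w) = (z^d, G_z w)` on `ℂ × ℂ²` whose fibre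
maps over the unit circle are automorphisms of `ℂ²` with an attracting fixed point at `0`, and `p₁`
on the unit circle, such that the stable set of `(p₁,0)` in its fibre is not the image of `ℂ²`
under an injective holomorphic map. -/
theorem result : ∃ (d : ℕ) (G : ℂ → ℂ × ℂ → ℂ × ℂ) (p : ℂ), 2 ≤ d ∧
    Differentiable ℂ (fun z : ℂ × (ℂ × ℂ) => G z.1 z.2) ∧
    (∀ l : ℂ, ‖l‖ = 1 →
      (∃ H : ℂ × ℂ → ℂ × ℂ, Differentiable ℂ H ∧ Function.LeftInverse H (G l) ∧
        Function.RightInverse H (G l)) ∧ G l 0 = 0 ∧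
      ∀ μ : ℂ, Module.End.HasEigenvalue (fderiv ℂ (G l) 0).toLinearMap μ → ‖μ‖ < 1) ∧
    ‖p‖ = 1 ∧
    ¬ ∃ Φ : ℂ × ℂ → ℂ × ℂ, Differentiable ℂ Φ ∧ Function.Injective Φ ∧
      Set.range Φ = {w | Tendsto (fun n : ℕ =>
        ‖(fun z : ℂ × (ℂ × ℂ) => (z.1 ^ d, G z.1 z.2))^[n] (p, w) -
          (fun z : ℂ × (ℂ × ℂ) => (z.1 ^ d, G z.1 z.2))^[n] (p, 0)‖) atTop (𝓝 0)} := by
  refine ⟨3, G, I, by norm_num, by unfold G; fun_prop, fun l _ => ⟨⟨H l, by unfold H; fun_prop,
    fun w => ?_, fun w => ?_⟩, by simp [G], fun μ hμ => ?_⟩, norm_I, ?_⟩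
  · ext <;> simp only [G, H] <;> ring
  · ext <;> simp only [G, H] <;> ring
  · obtain ⟨v, hv⟩ := hμ.exists_hasEigenvector
    have h1 : fderiv ℂ (G l) 0 v = μ • v := hv.apply_eq_smul
    have hlin : IsLinearMap ℂ (G l) := by
      refine ⟨fun a b => ?_, fun c a => ?_⟩
      · ext <;> simp [G] <;> ring
      · ext <;> simp [G] <;> ring
    have h0 : fderiv ℂ (G l) 0 = LinearMap.toContinuousLinearMap (hlin.mk' _) :=
      (LinearMap.toContinuousLinearMap (hlin.mk' _)).fderiv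
    rw [h0] at h1
    have h2 : G l v = μ • v := h1
    have h3 := congrArg Prod.fst h2
    have h4 := congrArg Prod.snd h2
    simp only [G, Prod.smul_fst, Prod.smul_snd, smul_eq_mul] at h3 h4
    by_contra hn
    have h5 : μ - 1 / 2 ≠ 0 := fun h => hn (by rw [sub_eq_zero.1 h]; norm_num)
    have h6 : v.2 - l * v.1 = 0 :=
      (mul_eq_zero.1 (show (μ - 1 / 2) * (v.2 - l * v.1) = 0 by
        linear_combination l * h3 - h4)).resolve_left h5
    refine hv.2 (Prod.ext ?_ ?_)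
    · exact (mul_eq_zero.1 (show (μ - 1 / 2) * v.1 = 0 by
        linear_combination 15 / 16 * h6 - h3)).resolve_left h5
    · exact (mul_eq_zero.1 (show (μ - 1 / 2) * v.2 = 0 by
        linear_combination 15 / 16 * l * h6 - h4)).resolve_left h5
  · rintro ⟨Φ, hd, hi, hr⟩
    set F := fun z : ℂ × (ℂ × ℂ) => (z.1 ^ 3, G z.1 z.2) with hF
    set ℓ : ℂ × ℂ → ℂ := fun w => (8 - 15 * I) * w.1 + 17 * w.2 with hℓ
    have h1 : ∀ n w, (F^[2 * n] (I, w)).1 = I ∧ ℓ (F^[2 * n] (I, w)).2 = 4 ^ n * ℓ w := by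
      intro n w
      induction n with
      | zero => simp
      | succ n ih =>
        rw [Nat.mul_succ, Function.iterate_succ_apply', Function.iterate_succ_apply']
        generalize F^[2 * n] (I, w) = z at ih
        obtain ⟨a, b⟩ := z
        obtain ⟨rfl, ih⟩ : a = I ∧ _ := ih
        have e : I ^ 3 = -I := I_pow_three
        refine ⟨by simp only [hF, e]; linear_combination -e, ?_⟩
        rw [pow_succ', mul_assoc, ← ih]
        simp only [hF, hℓ, G, e]
        have e2 : I ^ 2 = -1 := I_sq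
        have e4 : I ^ 4 = 1 := I_pow_four
        have e5 : I ^ 5 = I := by rw [pow_succ, e4, one_mul]
        ring_nf
        simp only [e, e2, e4, e5]
        ring
    have h2 : ∀ w ∈ Set.range Φ, ℓ w = 0 := fun w hw => by
      rw [hr] at hw
      have h3 := tendsto_zero_iff_norm_tendsto_zero.2 (hw.comp (tendsto_id.const_mul_atTop' two_pos))
      have h4 : Continuous fun z : ℂ × (ℂ × ℂ) => ℓ z.2 := by simp only [hℓ]; fun_prop
      have h5 := (h4.tendsto 0).comp h3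
      have h6 : Tendsto (fun n : ℕ => 4 ^ n * ℓ w) atTop (𝓝 0) := by
        have e : ℓ (0 : ℂ × (ℂ × ℂ)).2 = 0 := by simp [hℓ]
        rw [e] at h5
        refine h5.congr fun n => ?_
        have a := (h1 n w).2
        have b := (h1 n 0).2
        simp only [hℓ, Function.comp_apply, Prod.snd_sub, Prod.fst_sub, id, Prod.fst_zero,
          Prod.snd_zero] at a b ⊢
        linear_combination a - b
      have h7 : ‖ℓ w‖ ≤ 0 := ge_of_tendsto' (by simpa using h6.norm) fun n => by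
        refine le_mul_of_one_le_left (norm_nonneg _) (one_le_pow₀ (by norm_num))
      exact norm_le_zero_iff.1 h7
    refine no_inj (h := fun w => (Φ w).1) hd.fst fun a b hab => hi (Prod.ext hab ?_)
    have a1 := h2 _ ⟨a, rfl⟩
    have b1 := h2 _ ⟨b, rfl⟩
    simp only [hℓ] at a1 b1 hab
    linear_combination (a1 - b1) / 17 - (8 - 15 * I) / 17 * hab

end Pool.Agent.Results.MP_e40659_an.Line
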